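import Pool.Agent.W719.AX.Ker

set_option autoImplicit false

namespace Pool.Agent.W249.AX

open Finset Filter Topology Metric
open Pool.Agent.W711.HT Pool.Agent.W719.AX
open scoped Real

/-! ### Logarithms on convex sets -/

theorem small_log {z : ℂ} (h : Complex.exp z = 1) (hz : ‖z‖ < 1) : z = 0 := by
  have h1 : |z.im| < 1 := lt_of_le_of_lt (Complex.abs_im_le_norm z) hz
  have h2 := abs_lt.mp h1
  have h3 : Complex.log (Complex.exp z) = z :=
    Complex.log_exp (by linarith [Real.pi_gt_three]) (by linarith [Real.pi_gt_three])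
  rw [← h3, h, Complex.log_one]

variable {E : Type} [NormedAddCommGroup E] [NormedSpace ℂ E]

theorem diff_log {U : Set E} (hU : IsOpen U) {f L : E → ℂ} (hf : DifferentiableOn ℂ f U)
    (hL : ContinuousOn L U) (hfL : ∀ x ∈ U, Complex.exp (L x) = f x) : DifferentiableOn ℂ L U := by
  intro x₀ hx₀
  have hUx : U ∈ 𝓝 x₀ := hU.mem_nhds hx₀
  have hfx : DifferentiableAt ℂ f x₀ := (hf x₀ hx₀).differentiableAt hUx
  have hLx : ContinuousAt L x₀ := hL.continuousAt hUx
  have h0 : f x₀ ≠ 0 := by rw [← hfL x₀ hx₀]; exact Complex.exp_ne_zero _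
  set g : E → ℂ := fun x => Complex.log (f x / f x₀) + L x₀ with hg
  have hgd : DifferentiableAt ℂ g x₀ := by
    have h1 : DifferentiableAt ℂ (fun x => f x / f x₀) x₀ := by
      simp only [div_eq_mul_inv]
      exact hfx.mul_const _
    have h2 : f x₀ / f x₀ ∈ Complex.slitPlane := by rw [div_self h0]; exact Complex.one_mem_slitPlane
    exact (h1.clog h2).add_const _
  have hgx : g x₀ = L x₀ := by simp [hg, div_self h0]
  have hlim : Tendsto (fun x => L x - g x) (𝓝 x₀) (𝓝 0) := by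
    have := hLx.tendsto.sub hgd.continuousAt.tendsto
    rwa [hgx, sub_self] at this
  have hev : ∀ᶠ x in 𝓝 x₀, L x = g x := by
    have h1 : ∀ᶠ x in 𝓝 x₀, ‖L x - g x‖ < 1 := by
      have := hlim.norm
      rw [norm_zero] at this
      exact this.eventually_lt_const zero_lt_one
    filter_upwards [h1, hUx] with x hx hxU
    have hfx0 : f x ≠ 0 := by rw [← hfL x hxU]; exact Complex.exp_ne_zero _
    have h2 : Complex.exp (L x - g x) = 1 := by
      rw [Complex.exp_sub, hfL x hxU]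
      simp only [hg]
      rw [Complex.exp_add, Complex.exp_log (div_ne_zero hfx0 h0), hfL x₀ hx₀]
      field_simp
    exact sub_eq_zero.mp (small_log h2 hx)
  exact (hgd.congr_of_eventuallyEq hev).differentiableWithinAt

theorem ex_log {U : Set E} (hU : IsOpen U) (hc : Convex ℝ U) {f : E → ℂ}
    (hf : DifferentiableOn ℂ f U) (h0 : ∀ x ∈ U, f x ≠ 0) {x₀ : E} (hx₀ : x₀ ∈ U) {l₀ : ℂ}
    (hl : Complex.exp l₀ = f x₀) :
    ∃ L : E → ℂ, DifferentiableOn ℂ L U ∧ (∀ x ∈ U, Complex.exp (L x) = f x) ∧ L x₀ = l₀ := by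
  have hs : IsSimplyConnected U := by
    have := hc.contractibleSpace ⟨x₀, hx₀⟩
    exact (inferInstance : SimplyConnectedSpace U)
  obtain ⟨L, hLc, hL⟩ := Complex.exists_continuousOn_eqOn_exp_comp hs hU hf.continuousOn
    (by rintro ⟨x, hx, h⟩; exact h0 x hx h)
  have hLd := diff_log hU hf hLc (fun x hx => hL hx)
  refine ⟨fun x => L x + (l₀ - L x₀), hLd.add_const _, ?_, by ring⟩
  intro x hx
  have h1 : Complex.exp (L x) = f x := hL hx
  have h2 : Complex.exp (L x₀) = f x₀ := hL hx₀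
  rw [Complex.exp_add, Complex.exp_sub, hl, h1, h2, div_self (h0 x₀ hx₀), mul_one]

omit [NormedSpace ℂ E] in
theorem real_log {S : Set E} (hS : IsPreconnected S) {L : E → ℂ} (hL : ContinuousOn L S)
    (hr : ∀ x ∈ S, (Complex.exp (L x)).im = 0) {x₀ : E} (hx₀ : x₀ ∈ S) (h0 : (L x₀).im = 0)
    {x : E} (hx : x ∈ S) : (L x).im = 0 := by
  by_contra hne
  have hLi : ContinuousOn (fun y => (L y).im) S := Complex.continuous_im.comp_continuousOn hL
  have key : ∀ v : ℝ, (∃ y ∈ S, (L y).im = v) → 0 < |v| → |v| < π → False := by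
    rintro v ⟨y, hy, rfl⟩ hv hv2
    have h1 := hr y hy
    rw [Complex.exp_im] at h1
    have h2 : Real.sin (L y).im = 0 := by
      rcases mul_eq_zero.mp h1 with h | h
      · exact absurd h (Real.exp_pos _).ne'
      · exact h
    have h3 := abs_lt.mp hv2
    have h4 : (L y).im = 0 := (Real.sin_eq_zero_iff_of_lt_of_lt h3.1 h3.2).mp h2
    rw [h4, abs_zero] at hv
    exact lt_irrefl _ hv
  rcases lt_or_gt_of_ne hne with h | h
  · have hv := hS.intermediate_value hx hx₀ hLi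
    have hm : max ((L x).im) (-1) ∈ Set.Icc ((L x).im) ((L x₀).im) := by
      refine ⟨le_max_left _ _, ?_⟩
      rw [h0]
      exact max_le h.le (by norm_num)
    obtain ⟨y, hy, hyv⟩ := hv hm
    have h5 : max ((L x).im) (-1) < 0 := max_lt h (by norm_num)
    have h6 : -1 ≤ max ((L x).im) (-1) := le_max_right _ _
    refine key _ ⟨y, hy, hyv⟩ (abs_pos.mpr h5.ne) ?_
    rw [abs_of_neg h5]
    linarith [Real.pi_gt_three]
  · have hv := hS.intermediate_value hx₀ hx hLi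
    have hm : min ((L x).im) 1 ∈ Set.Icc ((L x₀).im) ((L x).im) := by
      refine ⟨?_, min_le_left _ _⟩
      rw [h0]
      exact le_min h.le (by norm_num)
    obtain ⟨y, hy, hyv⟩ := hv hm
    have h5 : 0 < min ((L x).im) 1 := lt_min h (by norm_num)
    have h6 : min ((L x).im) 1 ≤ 1 := min_le_right _ _
    refine key _ ⟨y, hy, hyv⟩ (abs_pos.mpr h5.ne') ?_
    rw [abs_of_pos h5]
    linarith [Real.pi_gt_three]

/-- one step of the chain -/
theorem bc_step {U : Set E} {L : E → ℂ} (hL : DifferentiableOn ℂ L U)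
    {M r : ℝ} (hM : 0 < M) (hr : 0 < r) (hre : ∀ x ∈ U, |(L x).re| ≤ M) {p v : E}
    (hp : ball p (2 * r) ⊆ U) (hv : ‖v‖ ≤ r) : ‖L (p + v) - L p‖ ≤ 6 * M := by
  have hmem : ∀ ζ ∈ ball (0 : ℂ) 2, p + ζ • v ∈ U := by
    intro ζ hζ
    apply hp
    rw [mem_ball, dist_eq_norm, add_sub_cancel_left, norm_smul]
    rw [mem_ball, dist_zero_right] at hζ
    have h1 : ‖ζ‖ * ‖v‖ ≤ ‖ζ‖ * r := by gcongr
    have h2 : ‖ζ‖ * r < 2 * r := by gcongr
    linarith
  set g : ℂ → ℂ := fun ζ => L (p + ζ • v) - (((L p).im : ℝ) : ℂ) * Complex.I with hg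
  have hgd : DifferentiableOn ℂ g (ball 0 2) := by
    have h1 : DifferentiableOn ℂ (fun ζ : ℂ => p + ζ • v) (ball 0 2) := by fun_prop
    exact (hL.comp h1 hmem).sub_const _
  have hgre : Set.MapsTo g (ball 0 2) {z | z.re ≤ M} := by
    intro ζ hζ
    have h1 := (abs_le.mp (hre _ (hmem ζ hζ))).2
    have h2 : (g ζ).re = (L (p + ζ • v)).re := by simp [hg]
    show (g ζ).re ≤ M
    rw [h2]; exact h1
  have hpU : p ∈ U := by
    have := hmem 0 (by simp)
    simpa using this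
  have hg0 : g 0 = (((L p).re : ℝ) : ℂ) := by
    apply Complex.ext <;> simp [hg]
  have hg0n : ‖g 0‖ ≤ M := by
    rw [hg0, Complex.norm_real]; exact hre p hpU
  have h1mem : (1 : ℂ) ∈ ball (0 : ℂ) 2 := by simp
  have hbc := Complex.borelCaratheodory hM hgd hgre (by norm_num) h1mem
  have hbc2 : ‖g 1‖ ≤ 5 * M := by
    refine hbc.trans ?_
    simp only [norm_one]
    norm_num
    linarith
  have h3 : L (p + v) - L p = g 1 - g 0 := by
    simp only [hg]
    rw [one_smul, zero_smul, add_zero]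
    ring
  rw [h3]
  refine (norm_sub_le _ _).trans ?_
  linarith

theorem bc_chain {U K : Set E} (hK : Convex ℝ K) (h0 : (0 : E) ∈ K) {L : E → ℂ}
    (hL : DifferentiableOn ℂ L U) {M r : ℝ} (hM : 0 < M) (hr : 0 < r)
    (hre : ∀ x ∈ U, |(L x).re| ≤ M) (hKU : ∀ p ∈ K, ball p (2 * r) ⊆ U)
    (him : (L 0).im = 0) {n : ℕ} (hn : 0 < n) {x : E} (hx : x ∈ K) (hxn : ‖x‖ ≤ n * r) :
    ‖L x‖ ≤ (6 * n + 1) * M := by
  have hn0 : (n : ℝ) ≠ 0 := by positivity
  have key : ∀ k : ℕ, k ≤ n → ‖L (((k : ℝ) / n) • x)‖ ≤ (6 * k + 1) * M := by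
    intro k
    induction k with
    | zero =>
      intro _
      have h1 : ((((0 : ℕ) : ℝ) / n) • x) = 0 := by simp
      rw [h1]
      have hU0 : (0 : E) ∈ U := hKU 0 h0 (mem_ball_self (by positivity))
      have h2 : L 0 = (((L 0).re : ℝ) : ℂ) := by
        apply Complex.ext
        · simp
        · simp [him]
      rw [h2, Complex.norm_real, Real.norm_eq_abs]
      have := hre 0 hU0
      push_cast
      linarith
    | succ k ih =>
      intro hk
      have ih' := ih (by omega)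
      have h1 : ((((k + 1 : ℕ) : ℝ) / n) • x) = ((k : ℝ) / n) • x + ((1 : ℝ) / n) • x := by
        rw [← add_smul]
        congr 1
        push_cast
        ring
      rw [h1]
      have hmem : ((k : ℝ) / n) • x ∈ K := by
        have hk1 : (k : ℝ) / n ≤ 1 := by
          rw [div_le_one (by positivity)]
          exact_mod_cast (by omega : k ≤ n)
        have hk0 : 0 ≤ (k : ℝ) / n := by positivity
        have := hK h0 hx (sub_nonneg.mpr hk1) hk0 (by ring)
        simpa using this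
      have hv : ‖((1 : ℝ) / n) • x‖ ≤ r := by
        rw [norm_smul, Real.norm_eq_abs, abs_of_pos (by positivity)]
        rw [one_div, inv_mul_le_iff₀ (by positivity)]
        exact hxn
      have h2 := bc_step hL hM hr hre (hKU _ hmem) hv
      have h3 := norm_add_le (L (((k : ℝ) / n) • x))
        (L (((k : ℝ) / n) • x + ((1 : ℝ) / n) • x) - L (((k : ℝ) / n) • x))
      rw [add_sub_cancel] at h3
      push_cast
      linarith
  have := key n le_rfl
  rwa [div_self hn0, one_smul] at this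

/-! ### Real points -/

theorem rc_open (ρ τ : ℝ) : IsOpen (Rc ρ τ) := by
  have h1 : IsOpen {z : ℂ | |z.re| < ρ} :=
    isOpen_lt (Complex.continuous_re.abs) continuous_const
  have h2 : IsOpen {z : ℂ | |z.im| < τ} :=
    isOpen_lt (Complex.continuous_im.abs) continuous_const
  exact h1.inter h2

theorem rc_convex (ρ τ : ℝ) : Convex ℝ (Rc ρ τ) := by
  intro x hx y hy a b ha hb hab
  have key : ∀ p q t : ℝ, |p| < t → |q| < t → |a * p + b * q| < t := by
    intro p q t hp hq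
    have hp' := abs_lt.mp hp
    have hq' := abs_lt.mp hq
    rw [abs_lt]
    have hb' : b = 1 - a := by linarith
    subst hb'
    rcases ha.eq_or_lt with h | h
    · subst h
      constructor <;> linarith
    · constructor <;> nlinarith
  constructor
  · have := key x.re y.re ρ hx.1 hy.1
    simpa using this
  · have := key x.im y.im τ hx.2 hy.2
    simpa using this

theorem ker_real (N : ℕ) (a b : ℝ) : (ker N (a : ℂ) (b : ℂ)).im = 0 := by
  have h : ker N (a : ℂ) (b : ℂ) = ((∑ d ∈ range N,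
      (∏ j ∈ range d, (2 * Real.cos a + 2 * Real.cos (phi N j))) *
      (∏ j ∈ range d, (2 * Real.cos b + 2 * Real.cos (phi N j))) / (Sd N d) ^ 4 : ℝ) : ℂ) := by
    simp only [W711.HT.ker, Rp]
    push_cast
    rfl
  rw [h, Complex.ofReal_im]

theorem ker_zero_pos {N : ℕ} (hN : 0 < N) : 0 < (ker N 0 0).re := by
  have h : ker N (0 : ℂ) (0 : ℂ) = ((∑ d ∈ range N,
      ((∏ j ∈ range d, (2 * Real.cos 0 + 2 * Real.cos (phi N j))) ^ 2 / (Sd N d) ^ 4) : ℝ) : ℂ) := by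
    simp only [W711.HT.ker, Rp]
    push_cast
    simp only [pow_two]
  rw [h, Complex.ofReal_re]
  apply Finset.sum_pos'
  · intro d _
    positivity
  · exact ⟨0, by simpa using hN, by simp [Sd]⟩

theorem dl_real {ρ τ κ c : ℝ} {s dl : ℂ → ℂ → ℂ} (h : KD ρ τ κ c s dl) {a b : ℝ}
    (ha : (a : ℂ) ∈ Rc (3 * ρ) (3 * τ)) (hb : (b : ℂ) ∈ Rc (3 * ρ) (3 * τ)) :
    (dl a b).im = 0 ∧ 3 / 16 ≤ (dl a b).re ∧ (dl a b).re ≤ 5 / 16 := by
  have h1 := h.dclose a ha b hb
  have h2 := h.dcos a ha b hb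
  have h3 : |(dl a b).re - 1 / 4| ≤ 1 / 16 := by
    have h4 := Complex.abs_re_le_norm (dl a b - 1 / 4)
    have h5 : (dl a b - 1 / 4 : ℂ).re = (dl a b).re - 1 / 4 := by simp
    rw [h5] at h4
    exact h4.trans h1
  have h3' := abs_le.mp h3
  refine ⟨?_, by linarith, by linarith⟩
  have c2 : (starRingEnd ℂ) 2 = 2 := map_ofNat (starRingEnd ℂ) 2
  have h6 : Complex.cos (2 * π * dl a b) = Complex.cos (2 * π * (starRingEnd ℂ) (dl a b)) := by
    have h7 : (starRingEnd ℂ) (Complex.cos (2 * π * dl a b)) = Complex.cos (2 * π * dl a b) := by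
      rw [h2]
      simp [← Complex.cos_conj, c2]
    rw [← h7, ← Complex.cos_conj]
    simp [c2]
  rw [Complex.cos_eq_cos_iff] at h6
  obtain ⟨k, hk | hk⟩ := h6
  · have h8 := congrArg Complex.re hk
    have h9 := congrArg Complex.im hk
    simp at h8 h9
    nlinarith [Real.pi_pos]
  · exfalso
    have h8 := congrArg Complex.re hk
    simp at h8
    have h9 : (dl a b).re * 2 = k := by
      have := Real.pi_pos
      nlinarith
    have h10 : (0 : ℝ) < (k : ℝ) := by linarith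
    have h11 : (k : ℝ) < 1 := by linarith
    have h12 : (0 : ℤ) < k := by exact_mod_cast h10
    have h13 : k < 1 := by exact_mod_cast h11
    omega

theorem rrF_real {δ a : ℝ} (h0 : 0 ≤ δ) (h1 : δ ≤ 5 / 16) (ha : |a| ≤ 3 / 4) :
    (rrF (δ : ℂ) (a : ℂ)).im = 0 := by
  have h : ∫ t in (0:ℝ)..1, Complex.log (2 * Complex.cos a + 2 * Complex.cos (2 * π * δ * t)) =
      ∫ t in (0:ℝ)..1, ((Real.log (2 * Real.cos a + 2 * Real.cos (2 * π * δ * t)) : ℝ) : ℂ) := by
    apply intervalIntegral.integral_congr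
    intro t ht
    rw [Set.uIcc_of_le (by norm_num)] at ht
    have ht0 := ht.1
    have ht1 := ht.2
    have hc1 : 1 - a ^ 2 / 2 ≤ Real.cos a := Real.one_sub_sq_div_two_le_cos
    have ha2 : a ^ 2 ≤ 9 / 16 := by
      have := abs_le.mp ha
      nlinarith
    have hc2 : -(7 / 16) ≤ Real.cos (2 * π * δ * t) := by
      have hx1 : 2 * π * δ * t ≤ 5 * π / 8 := by
        have : δ * t ≤ 5 / 16 := by nlinarith
        nlinarith [Real.pi_pos]
      have hx0 : 0 ≤ 2 * π * δ * t := by positivity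
      have hc3 : Real.cos (5 * π / 8) ≤ Real.cos (2 * π * δ * t) :=
        Real.cos_le_cos_of_nonneg_of_le_pi hx0 (by linarith [Real.pi_pos]) hx1
      have hc4 : Real.cos (5 * π / 8) = - Real.sin (π / 8) := by
        rw [show 5 * π / 8 = π / 8 + π / 2 by ring, Real.cos_add_pi_div_two]
      have hc5 : Real.sin (π / 8) ≤ π / 8 := Real.sin_le (by positivity)
      linarith [Real.pi_lt_d2]
    show Complex.log _ =
      ((Real.log (2 * Real.cos a + 2 * Real.cos (2 * π * δ * t)) : ℝ) : ℂ)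
    rw [Complex.ofReal_log (by linarith)]
    push_cast
    rfl
  rw [rrF, h, intervalIntegral.integral_ofReal, ← Complex.ofReal_mul, Complex.ofReal_im]

theorem ssF_real {δ : ℝ} (h0 : 0 ≤ δ) (h1 : δ ≤ 5 / 16) : (ssF (δ : ℂ)).im = 0 := by
  have h : ∫ t in (0:ℝ)..1, Complex.log (2 * Complex.sin (π * δ * t)) =
      ∫ t in (0:ℝ)..1, ((Real.log (2 * Real.sin (π * δ * t)) : ℝ) : ℂ) := by
    apply intervalIntegral.integral_congr
    intro t ht
    rw [Set.uIcc_of_le (by norm_num)] at ht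
    have ht0 := ht.1
    have ht1 := ht.2
    have hc2 : 0 ≤ Real.sin (π * δ * t) := by
      apply Real.sin_nonneg_of_nonneg_of_le_pi (by positivity)
      have : δ * t ≤ 1 := by nlinarith
      nlinarith [Real.pi_pos]
    show Complex.log _ = ((Real.log (2 * Real.sin (π * δ * t)) : ℝ) : ℂ)
    rw [Complex.ofReal_log (by linarith)]
    push_cast
    rfl
  rw [ssF, h, intervalIntegral.integral_ofReal, ← Complex.ofReal_mul, Complex.ofReal_im]

theorem s_real {ρ τ κ c : ℝ} {s dl : ℂ → ℂ → ℂ} (h : KD ρ τ κ c s dl) {a b : ℝ}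
    (ha : (a : ℂ) ∈ Rc (3 * ρ) (3 * τ)) (hb : (b : ℂ) ∈ Rc (3 * ρ) (3 * τ)) :
    (s a b).im = 0 := by
  obtain ⟨h1, h2, h3⟩ := dl_real h ha hb
  have h4 : dl a b = (((dl a b).re : ℝ) : ℂ) := by
    apply Complex.ext <;> simp [h1]
  have h5 := h.hρ.2
  have ha' : |a| ≤ 3 / 4 := by
    have := ha.1
    rw [Complex.ofReal_re] at this
    linarith
  have hb' : |b| ≤ 3 / 4 := by
    have := hb.1
    rw [Complex.ofReal_re] at this
    linarith
  rw [h.scrit a ha b hb, h4]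
  have e1 := rrF_real (δ := (dl a b).re) (by linarith) h3 ha'
  have e2 := rrF_real (δ := (dl a b).re) (by linarith) h3 hb'
  have e3 := ssF_real (δ := (dl a b).re) (by linarith) h3
  simp [e1, e2, e3]

theorem kx_real {ρ τ κ c : ℝ} {s dl : ℂ → ℂ → ℂ} (h : KD ρ τ κ c s dl) (N : ℕ) {x : ℂ × ℂ}
    (h1 : x.1 ∈ Rc (3 * ρ) (3 * τ)) (h2 : x.2 ∈ Rc (3 * ρ) (3 * τ)) (h3 : x.1.im = 0)
    (h4 : x.2.im = 0) : (kx s N x).im = 0 := by
  obtain ⟨p, q⟩ := x
  simp only at h1 h2 h3 h4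
  have hp : p = ((p.re : ℝ) : ℂ) := by apply Complex.ext <;> simp [h3]
  have hq : q = ((q.re : ℝ) : ℂ) := by apply Complex.ext <;> simp [h4]
  rw [hp] at h1
  rw [hq] at h2
  rw [hp, hq]
  have e1 := s_real h h1 h2
  have e2 := ker_real N p.re q.re
  have e3 : s (p.re : ℂ) (q.re : ℂ) = (((s (p.re : ℂ) (q.re : ℂ)).re : ℝ) : ℂ) := by
    apply Complex.ext <;> simp [e1]
  have e4 : W711.HT.ker N (p.re : ℂ) (q.re : ℂ) =
      (((W711.HT.ker N (p.re : ℂ) (q.re : ℂ)).re : ℝ) : ℂ) := by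
    apply Complex.ext <;> simp [e2]
  simp only [kx]
  rw [e3, e4]
  have e5 : Complex.exp (-((N : ℂ) * (((s (p.re : ℂ) (q.re : ℂ)).re : ℝ) : ℂ))) =
      ((Real.exp (-((N : ℝ) * (s (p.re : ℂ) (q.re : ℂ)).re)) : ℝ) : ℂ) := by
    push_cast
    rfl
  rw [e5, ← Complex.ofReal_mul, ← Complex.ofReal_mul, Complex.ofReal_im]

theorem kx_zero_pos {ρ τ κ c : ℝ} {s dl : ℂ → ℂ → ℂ} (h : KD ρ τ κ c s dl) {N : ℕ} (hN : 0 < N) :
    0 < (kx s N 0).re := by
  have e2 : (W711.HT.ker N (0 : ℂ) (0 : ℂ)).im = 0 := by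
    have := ker_real N 0 0
    simpa using this
  have e4 : W711.HT.ker N (0 : ℂ) (0 : ℂ) = (((W711.HT.ker N (0 : ℂ) (0 : ℂ)).re : ℝ) : ℂ) := by
    apply Complex.ext <;> simp [e2]
  have e6 := ker_zero_pos hN
  simp only [kx, Prod.fst_zero, Prod.snd_zero]
  rw [h.zero, e4]
  have e5 : Complex.exp (-((N : ℂ) * ((2 * bet : ℝ) : ℂ))) =
      ((Real.exp (-((N : ℝ) * (2 * bet))) : ℝ) : ℂ) := by
    push_cast
    rfl
  rw [e5, ← Complex.ofReal_mul, ← Complex.ofReal_mul, Complex.ofReal_re]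
  have hN' : (0 : ℝ) < N := by exact_mod_cast hN
  have := Real.sqrt_pos.mpr hN'
  positivity

/-! ### Differentiability and modulus -/

theorem Rp_diff (N d : ℕ) : Differentiable ℂ (fun z => Rp N d z) := by
  unfold Rp
  fun_prop

theorem kx_diff {ρ τ κ c : ℝ} {s dl : ℂ → ℂ → ℂ} (h : KD ρ τ κ c s dl) (N : ℕ) :
    DifferentiableOn ℂ (kx s N) (Rc (3 * ρ) (3 * τ) ×ˢ Rc (3 * ρ) (3 * τ)) := by
  have h1 := h.san
  have h2 : Differentiable ℂ (fun x : ℂ × ℂ => W711.HT.ker N x.1 x.2) := by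
    unfold W711.HT.ker
    apply Differentiable.fun_sum
    intro d _
    have e1 : Differentiable ℂ (fun x : ℂ × ℂ => Rp N d x.1) := (Rp_diff N d).comp differentiable_fst
    have e2 : Differentiable ℂ (fun x : ℂ × ℂ => Rp N d x.2) := (Rp_diff N d).comp differentiable_snd
    simp only [div_eq_mul_inv]
    exact (e1.mul e2).mul_const _
  unfold kx
  have h3 : DifferentiableOn ℂ (fun x : ℂ × ℂ => Complex.exp (-((N : ℂ) * s x.1 x.2)))
      (Rc (3 * ρ) (3 * τ) ×ˢ Rc (3 * ρ) (3 * τ)) := (h1.const_mul _).neg.cexp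
  exact (h3.const_mul _).mul h2.differentiableOn

theorem kx_mod {s : ℂ → ℂ → ℂ} {N : ℕ} (hN : 0 < N) {x : ℂ × ℂ}
    (h0 : W711.HT.ker N x.1 x.2 ≠ 0)
    (h1 : |Real.log ‖W711.HT.ker N x.1 x.2‖ - N * (s x.1 x.2).re| ≤ 1 * N) :
    kx s N x ≠ 0 ∧ |Real.log ‖kx s N x‖| ≤ 4 * N := by
  have hN' : (0 : ℝ) < N := by exact_mod_cast hN
  have hsq := Real.sqrt_pos.mpr hN'
  have hne : ((((Real.sqrt N) ^ 3 : ℝ)) : ℂ) ≠ 0 := by
    rw [Complex.ofReal_ne_zero]; positivity
  refine ⟨mul_ne_zero (mul_ne_zero hne (Complex.exp_ne_zero _)) h0, ?_⟩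
  have h2 : Real.log ‖kx s N x‖ = 3 / 2 * Real.log N - N * (s x.1 x.2).re +
      Real.log ‖W711.HT.ker N x.1 x.2‖ := by
    simp only [kx]
    rw [norm_mul, norm_mul, Real.log_mul (mul_ne_zero (norm_ne_zero_iff.mpr hne)
      (norm_ne_zero_iff.mpr (Complex.exp_ne_zero _))) (norm_ne_zero_iff.mpr h0),
      Real.log_mul (norm_ne_zero_iff.mpr hne) (norm_ne_zero_iff.mpr (Complex.exp_ne_zero _)),
      Complex.norm_real, Real.norm_eq_abs, abs_of_pos (by positivity), Real.log_pow,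
      Real.log_sqrt hN'.le, Complex.norm_exp, Real.log_exp]
    have e1 : (-((N : ℂ) * s x.1 x.2)).re = -(N * (s x.1 x.2).re) := by simp
    rw [e1]
    push_cast
    ring
  have h3 : Real.log N ≤ N := (Real.log_le_sub_one_of_pos hN').trans (by linarith)
  have h4 : 0 ≤ Real.log N := Real.log_nonneg (by exact_mod_cast hN)
  have h5 := abs_le.mp h1
  rw [h2, abs_le]
  constructor <;> linarith

theorem ball_rc {ρ τ : ℝ} (hτ : τ ≤ ρ) {p : ℂ × ℂ} (hp : p ∈ Rc ρ τ ×ˢ Rc ρ τ) :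
    ball p (2 * τ) ⊆ Rc (3 * ρ) (3 * τ) ×ˢ Rc (3 * ρ) (3 * τ) := by
  have key : ∀ z w : ℂ, z ∈ Rc ρ τ → dist w z < 2 * τ → w ∈ Rc (3 * ρ) (3 * τ) := by
    intro z w hz hw
    rw [dist_eq_norm] at hw
    have h1 := Complex.abs_re_le_norm (w - z)
    have h2 := Complex.abs_im_le_norm (w - z)
    rw [Complex.sub_re] at h1
    rw [Complex.sub_im] at h2
    have h3 := hz.1
    have h4 := hz.2
    have h5 : |w.re| ≤ |w.re - z.re| + |z.re| := by
      have := abs_add_le (w.re - z.re) z.re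
      rwa [sub_add_cancel] at this
    have h6 : |w.im| ≤ |w.im - z.im| + |z.im| := by
      have := abs_add_le (w.im - z.im) z.im
      rwa [sub_add_cancel] at this
    exact ⟨by linarith, by linarith⟩
  intro w hw
  rw [mem_ball, Prod.dist_eq, max_lt_iff] at hw
  exact ⟨key _ _ hp.1 hw.1, key _ _ hp.2 hw.2⟩

theorem klog : S_KLOG := by
  intro ρ τ κ c s dl h
  have hρ := h.hρ.1
  have hτ := h.hτ.1
  have hτρ := h.hτ.2
  obtain ⟨n, hn⟩ := exists_nat_gt ((2 * ρ) / τ)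
  have hn0 : 0 < n := by
    have : (0 : ℝ) < n := lt_trans (by positivity) hn
    exact_mod_cast this
  set U : Set (ℂ × ℂ) := Rc (3 * ρ) (3 * τ) ×ˢ Rc (3 * ρ) (3 * τ) with hU
  set K : Set (ℂ × ℂ) := Rc ρ τ ×ˢ Rc ρ τ with hK
  have hUo : IsOpen U := (rc_open _ _).prod (rc_open _ _)
  have hUc : Convex ℝ U := (rc_convex _ _).prod (rc_convex _ _)
  have hKc : Convex ℝ K := (rc_convex _ _).prod (rc_convex _ _)
  have z1 : (0 : ℂ) ∈ Rc ρ τ := ⟨by simpa using hρ, by simpa using hτ⟩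
  have z3 : (0 : ℂ) ∈ Rc (3 * ρ) (3 * τ) := ⟨by simpa using hρ, by simpa using hτ⟩
  have hU0 : (0 : ℂ × ℂ) ∈ U := ⟨z3, z3⟩
  have hK0 : (0 : ℂ × ℂ) ∈ K := ⟨z1, z1⟩
  have hRcsub : ∀ z ∈ Rc ρ τ, z ∈ Rc (3 * ρ) (3 * τ) := by
    intro z hz
    exact ⟨by linarith [hz.1], by linarith [hz.2]⟩
  have hKU : K ⊆ U := fun x hx => ⟨hRcsub _ hx.1, hRcsub _ hx.2⟩
  -- the logarithm for large N
  have hex : ∀ᶠ N : ℕ in atTop, ∃ L : ℂ × ℂ → ℂ, DifferentiableOn ℂ L U ∧
      (∀ x ∈ U, Complex.exp (L x) = kx s N x) ∧ (L 0).im = 0 ∧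
      (∀ x ∈ U, |(L x).re| ≤ 4 * N) := by
    filter_upwards [h.mw 1 one_pos, eventually_gt_atTop 0] with N hmw hN
    have hne : ∀ x ∈ U, kx s N x ≠ 0 ∧ |Real.log ‖kx s N x‖| ≤ 4 * N := by
      intro x hx
      have := hmw x.1 hx.1 x.2 hx.2
      exact kx_mod hN this.1 this.2
    have hpos := kx_zero_pos h hN
    have him0 : (kx s N 0).im = 0 := kx_real h N (by simpa using z3) (by simpa using z3)
      (by simp) (by simp)
    have hl : Complex.exp ((Real.log (kx s N 0).re : ℝ) : ℂ) = kx s N 0 := by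
      rw [← Complex.ofReal_exp, Real.exp_log hpos]
      apply Complex.ext <;> simp [him0]
    obtain ⟨L, hL1, hL2, hL3⟩ := ex_log hUo hUc (kx_diff h N) (fun x hx => (hne x hx).1) hU0 hl
    refine ⟨L, hL1, hL2, by rw [hL3]; exact Complex.ofReal_im _, ?_⟩
    intro x hx
    have h1 := (hne x hx).2
    rwa [← hL2 x hx, Complex.norm_exp, Real.log_exp] at h1
  classical
  refine ⟨(6 * n + 1) * 4, fun N => if hN : ∃ L : ℂ × ℂ → ℂ, DifferentiableOn ℂ L U ∧
      (∀ x ∈ U, Complex.exp (L x) = kx s N x) ∧ (L 0).im = 0 ∧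
      (∀ x ∈ U, |(L x).re| ≤ 4 * N) then fun p q => hN.choose (p, q) else fun _ _ => 0, ?_⟩
  filter_upwards [hex, eventually_gt_atTop 0] with N hN hN0
  have hNp : (0 : ℝ) < N := by exact_mod_cast hN0
  simp only [dif_pos hN]
  obtain ⟨hL1, hL2, hL3, hL4⟩ := hN.choose_spec
  set L := hN.choose with hLdef
  clear_value L
  refine ⟨?_, ?_, ?_⟩
  · intro q hq
    have e1 : DifferentiableOn ℂ (fun p : ℂ => (p, q)) (Rc ρ τ) := by fun_prop
    exact (hL1.comp e1 (fun p hp => ⟨hRcsub _ hp, hRcsub _ hq⟩))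
  · intro p hp
    have e1 : DifferentiableOn ℂ (fun q : ℂ => (p, q)) (Rc ρ τ) := by fun_prop
    exact (hL1.comp e1 (fun q hq => ⟨hRcsub _ hp, hRcsub _ hq⟩))
  · intro p hp q hq
    have hx : (p, q) ∈ K := ⟨hp, hq⟩
    refine ⟨?_, hL2 _ (hKU hx), ?_⟩
    · have hnorm : ‖((p, q) : ℂ × ℂ)‖ ≤ n * τ := by
        have key : ∀ z ∈ Rc ρ τ, ‖z‖ ≤ n * τ := by
          intro z hz
          have h1 := Complex.norm_le_abs_re_add_abs_im z
          have h2 := hz.1
          have h3 := hz.2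
          rw [div_lt_iff₀ hτ] at hn
          linarith
        rw [Prod.norm_def]
        exact max_le (key _ hp) (key _ hq)
      have := bc_chain hKc hK0 hL1 (by positivity : (0 : ℝ) < 4 * N) hτ hL4
        (fun p hp => ball_rc hτρ hp) hL3 hn0 hx hnorm
      linarith
    · intro h1 h2
      have hSc : Convex ℝ {x : ℂ × ℂ | x ∈ U ∧ x.1.im = 0 ∧ x.2.im = 0} := by
        intro x hx y hy a b ha hb hab
        refine ⟨hUc hx.1 hy.1 ha hb hab, ?_, ?_⟩
        · simp [hx.2.1, hy.2.1]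
        · simp [hx.2.2, hy.2.2]
      have hxS : ((p, q) : ℂ × ℂ) ∈ {x : ℂ × ℂ | x ∈ U ∧ x.1.im = 0 ∧ x.2.im = 0} :=
        ⟨hKU hx, h1, h2⟩
      have h0S : (0 : ℂ × ℂ) ∈ {x : ℂ × ℂ | x ∈ U ∧ x.1.im = 0 ∧ x.2.im = 0} :=
        ⟨hU0, by simp, by simp⟩
      refine real_log hSc.isPreconnected (hL1.continuousOn.mono (fun x hx => hx.1)) ?_ h0S hL3 hxS
      intro x hx
      rw [hL2 x hx.1]
      exact kx_real h N hx.1.1 hx.1.2 hx.2.1 hx.2.2

end Pool.Agent.W249.AX

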